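import Mathlib
import Pool.Agent.W628.KM.Main

/-!
# Rational cohomology of classifying spaces of indefinite Kac-Moody groups

Let `A` be an indecomposable `n × n` generalized Cartan matrix of indefinite type, `n ≥ 3`, and let
`K(A)` be the unitary form of the Kac-Peterson group `G(A)`, with maximal torus `T` of rank `n`
whose cocharacter lattice is spanned by the simple coroots. Then `P = H^*(BT; ℚ)` is the polynomial
ring on the fundamental weights, `BK(A)` is the homotopy colimit of the spaces `BK_I` over the poset
of the subsets `I` with `W_I` finite, `H^*(BK_I; ℚ) = P^{W_I}`, and the spectral sequence of the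
homotopy colimit collapses (weights), so that `H^*(BG(A); ℚ)` is the cohomology algebra of that
poset with coefficients in `I ↦ P^{W_I}`. This algebra is written `A.H` here.

The theorem: it is not finitely generated.
-/

namespace Pool.Agent.Results.MP_fc0265_gt.NotFinitelyGenerated

open Pool.Agent.W628.KM

/-- For every `n ≥ 3` and every indecomposable `n × n` generalized Cartan matrix `A` of indefinite
type, the cohomology algebra of the poset of spherical subsets with coefficients in the invariant
rings `P^{W_I}` is not a finitely generated `ℚ`-algebra. -/
theorem result (n : ℕ) (hn : 3 ≤ n) (A : GCM n) (hind : A.Indecomposable)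
    (hdef : A.Indefinite) : ¬ Algebra.FiniteType ℚ A.H :=
  main A hn hind hdef

end Pool.Agent.Results.MP_fc0265_gt.NotFinitelyGenerated
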